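import Mathlib
import Pool.Agent.H315.Flow

set_option autoImplicit false

open MeasureTheory ProbabilityTheory Set

namespace Pool.Agent.Results.MP_5c5aaa_pr.SupportWithoutPeriodic

/-- The lattice `ℤ^d`, with the sup distance. -/
abbrev Z (d : ℕ) : Type := Fin d → ℤ

/-- A configuration is periodic if its stabiliser has finite index, i.e. some subgroup of finite
index consists of periods. -/
def Periodic {d : ℕ} {A : Type} (x : Z d → A) : Prop :=
  ∃ H : AddSubgroup (Z d), H.FiniteIndex ∧ ∀ v ∈ H, ∀ u, x (u + v) = x u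

/-- The law of the random field `X` is invariant under all shifts. -/
def ShiftInvariant {d : ℕ} {A Ω : Type} [MeasurableSpace A] [MeasurableSpace Ω] (P : Measure Ω)
    (X : Z d → Ω → A) : Prop :=
  ∀ v : Z d, P.map (fun ω (u : Z d) => X (u + v) ω) = P.map (fun ω (u : Z d) => X u ω)

/-- The random field `X` is finitely dependent. -/
def FinitelyDependent {d : ℕ} {A Ω : Type} [MeasurableSpace A] [MeasurableSpace Ω]
    (P : Measure Ω) (X : Z d → Ω → A) : Prop :=
  ∃ k : ℕ, ∀ S T : Set (Z d), (∀ s ∈ S, ∀ t ∈ T, (k : ℝ) ≤ dist s t) →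
    IndepFun (fun ω (u : S) => X u ω) (fun ω (u : T) => X u ω) P

/-- The support of the random field `X`. -/
def support {d : ℕ} {A Ω : Type} [MeasurableSpace Ω] (P : Measure Ω) (X : Z d → Ω → A) :
    Set (Z d → A) :=
  {x | ∀ B : Finset (Z d), 0 < P {ω | ∀ v ∈ B, X v ω = x v}}

/-! ### The lift of a point of the circle -/

/-- the circle -/
abbrev C : Type := AddCircle (1 : ℝ)

noncomputable def ρ (t : C) : ℝ := (AddCircle.measurableEquivIco 1 (-(1 / 2)) t : ℝ)

lemma ρ_coe (t : C) : ((ρ t : ℝ) : C) = t := AddCircle.coe_equivIco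

lemma ρ_abs (t : C) : |ρ t| ≤ 1 / 2 := by
  have h := (AddCircle.measurableEquivIco 1 (-(1 / 2) : ℝ) t).2
  obtain ⟨h1, h2⟩ := h
  rw [abs_le]
  constructor
  · exact h1
  · have : (AddCircle.measurableEquivIco 1 (-(1 / 2) : ℝ) t : ℝ) < -(1 / 2) + 1 := h2
    unfold ρ
    linarith

lemma ρ_meas : Measurable ρ :=
  measurable_subtype_coe.comp (AddCircle.measurableEquivIco 1 (-(1 / 2) : ℝ)).measurable

noncomputable def D (c a b p q : C) : ℝ :=
  ρ (c + (a - p)) - ρ (c + ((√2 : ℝ) : C) + (b - q)) + (ρ (b - a) - ρ (q - p)) + √2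

lemma D_int (c a b p q : C) : ∃ n : ℤ, D c a b p q = n := by
  have h : ((D c a b p q : ℝ) : C) = 0 := by
    unfold D
    simp only [AddCircle.coe_add, AddCircle.coe_sub, ρ_coe]
    abel
  rw [AddCircle.coe_eq_zero_iff] at h
  obtain ⟨n, hn⟩ := h
  refine ⟨n, ?_⟩
  rw [← hn]
  simp

noncomputable def Xf (c a b p q : C) : Fin 4 := Fin.ofNat 4 (⌊D c a b p q⌋).toNat

lemma Xf_val (c a b p q : C) : ((Xf c a b p q : ℕ) : ℝ) = D c a b p q := by
  obtain ⟨n, hn⟩ := D_int c a b p q
  obtain ⟨h1, h2⟩ := Pool.Agent.H315.Flow.sqrt_two_bounds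
  have a1 := abs_le.1 (ρ_abs (c + (a - p)))
  have a2 := abs_le.1 (ρ_abs (c + ((√2 : ℝ) : C) + (b - q)))
  have a3 := abs_le.1 (ρ_abs (b - a))
  have a4 := abs_le.1 (ρ_abs (q - p))
  have b1 : 0 ≤ n := by
    have : (-1 : ℝ) < (n : ℝ) := by rw [← hn]; unfold D; linarith
    have : (-1 : ℤ) < n := by exact_mod_cast this
    omega
  have b2 : n < 4 := by
    have : (n : ℝ) < 4 := by rw [← hn]; unfold D; linarith
    exact_mod_cast this
  have e : (Xf c a b p q : ℕ) = n.toNat := by
    unfold Xf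
    rw [hn, Int.floor_intCast]
    show n.toNat % 4 = n.toNat
    apply Nat.mod_eq_of_lt
    omega
  rw [e, hn]
  have : ((n.toNat : ℕ) : ℤ) = n := Int.toNat_of_nonneg b1
  exact_mod_cast this

lemma Xf_meas (c : C) {Ω : Type} {m : MeasurableSpace Ω} {a b p q : Ω → C}
    (ha : Measurable a) (hb : Measurable b) (hp : Measurable p) (hq : Measurable q) :
    Measurable (fun ω => Xf c (a ω) (b ω) (p ω) (q ω)) := by
  have hD : Measurable (fun ω => D c (a ω) (b ω) (p ω) (q ω)) := by
    unfold D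
    have h1 : Measurable (fun ω => ρ (c + (a ω - p ω))) :=
      ρ_meas.comp ((measurable_const).add (ha.sub hp))
    have h2 : Measurable (fun ω => ρ (c + ((√2 : ℝ) : C) + (b ω - q ω))) :=
      ρ_meas.comp ((measurable_const).add (hb.sub hq))
    have h3 : Measurable (fun ω => ρ (b ω - a ω)) := ρ_meas.comp (hb.sub ha)
    have h4 : Measurable (fun ω => ρ (q ω - p ω)) := ρ_meas.comp (hq.sub hp)
    exact ((h1.sub h2).add (h3.sub h4)).add measurable_const
  have h5 : Measurable (fun z : ℤ => Fin.ofNat 4 z.toNat) := measurable_from_top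
  exact h5.comp (Int.measurable_floor.comp hD)

section Field

variable {d : ℕ} (i0 i1 : Fin d)

/-- unit vector -/
def e (i : Fin d) : Z d := Pi.single i 1

noncomputable def cc (u : Z d) : C := ((-√2 * (u i0 : ℝ) : ℝ) : C)

noncomputable def X (u : Z d) (h : Z d → C) : Fin 4 :=
  Xf (cc i0 u) (h u) (h (u - e i0)) (h (u - e i1)) (h (u - e i0 - e i1))

noncomputable def P (d : ℕ) : Measure (Z d → C) :=
  Measure.infinitePi (fun _ : Z d => (AddCircle.haarAddCircle : Measure C))

instance : IsProbabilityMeasure (P d) := by unfold P; infer_instance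

lemma X_meas_of {m : MeasurableSpace (Z d → C)} (u : Z d)
    (h : ∀ w, (w = u ∨ w = u - e i0 ∨ w = u - e i1 ∨ w = u - e i0 - e i1) →
      @Measurable _ _ m _ (fun ω : Z d → C => ω w)) :
    @Measurable _ _ m _ (X i0 i1 u) := by
  unfold X
  exact Xf_meas _ (h _ (Or.inl rfl)) (h _ (Or.inr (Or.inl rfl)))
    (h _ (Or.inr (Or.inr (Or.inl rfl)))) (h _ (Or.inr (Or.inr (Or.inr rfl))))

lemma X_meas (u : Z d) : Measurable (X i0 i1 u) :=
  X_meas_of i0 i1 u fun w _ => measurable_pi_apply w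

/-- the measure preserving map behind shift invariance -/
noncomputable def Φ (v : Z d) (h : Z d → C) : Z d → C := fun w => h (w + v) + (w i1) • cc i0 v

lemma Φ_mp (v : Z d) : (P d).map (Φ i0 i1 v) = P d := by
  have hΦ : Measurable (Φ i0 i1 v) := by
    apply measurable_pi_lambda
    intro w
    exact (measurable_pi_apply (w + v)).add measurable_const
  unfold P
  refine Measure.eq_infinitePi _ fun s t ht => ?_
  rw [Measure.map_apply hΦ (MeasurableSet.pi s.countable_toSet fun i _ => ht i)]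
  have hpre : Φ i0 i1 v ⁻¹' ((s : Set (Z d)).pi t) =
      ((s.map (Equiv.addRight v).toEmbedding : Finset (Z d)) : Set (Z d)).pi
        (fun w => (fun z : C => z + ((w - v) i1) • cc i0 v) ⁻¹' (t (w - v))) := by
    ext h
    simp only [mem_preimage, Set.mem_pi, Finset.coe_map, mem_image, Finset.mem_coe,
      forall_exists_index, and_imp, Equiv.coe_toEmbedding, Equiv.coe_addRight, Φ]
    constructor
    · rintro h1 w u hu rfl
      simpa using h1 u hu
    · intro h1 u hu
      simpa using h1 (u + v) u hu rfl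
  rw [hpre, Measure.infinitePi_pi]
  · rw [Finset.prod_map]
    refine Finset.prod_congr rfl fun u _ => ?_
    simp only [Equiv.coe_toEmbedding, Equiv.coe_addRight, add_sub_cancel_right]
    exact measure_preimage_add_right (AddCircle.haarAddCircle : Measure C) (u i1 • cc i0 v) (t u)
  · intro w _
    exact (measurable_id.add measurable_const) (ht (w - v))

lemma cc_add (u v : Z d) : cc i0 (u + v) = cc i0 u + cc i0 v := by
  unfold cc
  rw [← AddCircle.coe_add]
  congr 1
  simp only [Pi.add_apply]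
  push_cast
  ring

variable {i0 i1}

lemma cc_sub_e (u : Z d) : cc i0 (u - e i0) = cc i0 u + ((√2 : ℝ) : C) := by
  unfold cc
  rw [← AddCircle.coe_add]
  congr 1
  simp only [Pi.sub_apply, e, Pi.single_eq_same]
  push_cast
  ring

lemma X_shift (hne : i0 ≠ i1) (u v : Z d) (h : Z d → C) :
    X i0 i1 (u + v) h = X i0 i1 u (Φ i0 i1 v h) := by
  have h1 : u + v - e i0 = u - e i0 + v := by abel
  have h2 : u + v - e i1 = u - e i1 + v := by abel
  have h3 : u - e i0 + v - e i1 = u - e i0 - e i1 + v := by abel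
  have s0 : (u - e i0) i1 = u i1 := by
    simp [e, Pi.single_eq_of_ne hne.symm]
  have s1 : (u - e i1) i1 = u i1 - 1 := by simp [e]
  have s01 : (u - e i0 - e i1) i1 = u i1 - 1 := by
    simp [e, Pi.single_eq_of_ne hne.symm]
  unfold X Xf D Φ
  rw [h1, h2, h3, s0, s1, s01, cc_add, sub_smul, one_smul]
  have g1 : cc i0 u + cc i0 v + (h (u + v) - h (u - e i1 + v)) =
      cc i0 u + (h (u + v) + u i1 • cc i0 v - (h (u - e i1 + v) + (u i1 • cc i0 v - cc i0 v))) := by
    abel
  have g2 : cc i0 u + cc i0 v + ((√2 : ℝ) : C) + (h (u - e i0 + v) - h (u - e i0 - e i1 + v)) =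
      cc i0 u + ((√2 : ℝ) : C) + (h (u - e i0 + v) + u i1 • cc i0 v -
        (h (u - e i0 - e i1 + v) + (u i1 • cc i0 v - cc i0 v))) := by
    abel
  have g3 : h (u - e i0 + v) - h (u + v) =
      h (u - e i0 + v) + u i1 • cc i0 v - (h (u + v) + u i1 • cc i0 v) := by
    abel
  have g4 : h (u - e i0 - e i1 + v) - h (u - e i1 + v) =
      h (u - e i0 - e i1 + v) + (u i1 • cc i0 v - cc i0 v) -
        (h (u - e i1 + v) + (u i1 • cc i0 v - cc i0 v)) := by
    abel
  rw [g1, g2, g3, g4]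

lemma shiftInvariant (hne : i0 ≠ i1) : ShiftInvariant (P d) (X i0 i1) := by
  intro v
  have hm : Measurable (fun (ω : Z d → C) (u : Z d) => X i0 i1 u ω) :=
    measurable_pi_lambda _ fun u => X_meas i0 i1 u
  have hΦ : Measurable (Φ i0 i1 v) := by
    apply measurable_pi_lambda
    intro w
    exact (measurable_pi_apply (w + v)).add measurable_const
  have : (fun (ω : Z d → C) (u : Z d) => X i0 i1 (u + v) ω) =
      (fun (ω : Z d → C) (u : Z d) => X i0 i1 u ω) ∘ Φ i0 i1 v := by
    funext ω u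
    exact X_shift hne u v ω
  rw [this, ← Measure.map_map hm hΦ, Φ_mp]

lemma nb (hne : i0 ≠ i1) {u w : Z d}
    (h : w = u ∨ w = u - e i0 ∨ w = u - e i1 ∨ w = u - e i0 - e i1) (i : Fin d) :
    w i ≤ u i ∧ u i ≤ w i + 1 := by
  have a0 : (e i0 : Z d) i = if i = i0 then 1 else 0 := by
    simp [e, Pi.single_apply]
  have a1 : (e i1 : Z d) i = if i = i1 then 1 else 0 := by
    simp [e, Pi.single_apply]
  have a2 : ¬ (i = i0 ∧ i = i1) := fun c => hne (c.1.symm.trans c.2)
  have b0 : (e i0 : Z d) i = 0 ∨ (e i0 : Z d) i = 1 := by rw [a0]; split_ifs <;> simp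
  have b1 : (e i1 : Z d) i = 0 ∨ (e i1 : Z d) i = 1 := by rw [a1]; split_ifs <;> simp
  have b2 : (e i0 : Z d) i + (e i1 : Z d) i ≤ 1 := by
    rw [a0, a1]
    split_ifs with c0 c1 c1
    · exact absurd ⟨c0, c1⟩ a2
    all_goals simp
  rcases h with h | h | h | h
  · rw [h]; omega
  · rw [h, Pi.sub_apply]; omega
  · rw [h, Pi.sub_apply]; omega
  · rw [h, Pi.sub_apply, Pi.sub_apply]; omega

lemma finitelyDependent (hne : i0 ≠ i1) : FinitelyDependent (P d) (X i0 i1) := by
  refine ⟨2, ?_⟩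
  intro S T hST
  obtain ⟨N, hN⟩ : ∃ N : Set (Z d) → Set (Z d), N = fun S =>
    {w | ∃ u ∈ S, w = u ∨ w = u - e i0 ∨ w = u - e i1 ∨ w = u - e i0 - e i1} := ⟨_, rfl⟩
  have hind : iIndepFun (fun (w : Z d) (ω : Z d → C) => ω w) (P d) :=
    iIndepFun_infinitePi (P := fun _ : Z d => (AddCircle.haarAddCircle : Measure C))
      (X := fun _ z => z) (fun _ => measurable_id)
  have hdisj : Disjoint (N S) (N T) := by
    rw [Set.disjoint_left, hN]
    rintro w ⟨s, hs, hsw⟩ ⟨t, ht, htw⟩
    have hd : dist s t ≤ 1 := by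
      rw [dist_pi_le_iff (by norm_num)]
      intro i
      have hs1 := nb hne hsw i
      have ht1 := nb hne htw i
      rw [Int.dist_eq, ← Int.cast_sub, ← Int.cast_abs]
      have : |s i - t i| ≤ 1 := by
        rw [abs_le]; omega
      exact_mod_cast this
    have := hST s hs t ht
    norm_num at this
    linarith
  have hI : iIndep (fun w : Z d => MeasurableSpace.comap (fun ω : Z d → C => ω w) inferInstance)
      (P d) := (iIndepFun_iff_iIndep _ _ _).1 hind
  have hI2 := indep_iSup_of_disjoint (fun w => (measurable_pi_apply w).comap_le) hI hdisj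
  have hcm : ∀ S : Set (Z d), MeasurableSpace.comap
      (fun (ω : Z d → C) (u : S) => X i0 i1 u ω) inferInstance ≤
      ⨆ w ∈ N S, MeasurableSpace.comap (fun ω : Z d → C => ω w) inferInstance := by
    intro S
    apply Measurable.comap_le
    refine @measurable_pi_lambda _ _ _ (_) _ _ fun u => ?_
    apply X_meas_of
    intro w hw
    have hle : MeasurableSpace.comap (fun ω : Z d → C => ω w) inferInstance ≤
        ⨆ w ∈ N S, MeasurableSpace.comap (fun ω : Z d → C => ω w) inferInstance := by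
      refine le_iSup₂_of_le w ?_ le_rfl
      rw [hN]
      exact ⟨u, u.2, hw⟩
    exact (comap_measurable _).mono hle le_rfl
  rw [IndepFun_iff_Indep]
  exact indep_of_indep_of_le_left (indep_of_indep_of_le_right hI2 (hcm T)) (hcm S)

/-! ### The support -/

/-- the point of the plane spanned by the two directions -/
def pt (i0 i1 : Fin d) (i j : ℤ) : Z d := i • e i0 + j • e i1

lemma flow_slice (h : Z d → C) :
    (fun p : ℤ × ℤ => X i0 i1 (pt i0 i1 p.1 p.2) h) ∈ Pool.Agent.H315.Flow.X₀ := by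
  refine ⟨fun i j => ρ (cc i0 (pt i0 i1 i j) + (h (pt i0 i1 i j) - h (pt i0 i1 i j - e i1))),
    fun i j => ρ (h (pt i0 i1 i j - e i0) - h (pt i0 i1 i j)), fun i j => ρ_abs _,
    fun i j => ρ_abs _, ?_⟩
  intro i j
  have h1 : pt i0 i1 (i - 1) j = pt i0 i1 i j - e i0 := by
    unfold pt; rw [sub_smul, one_smul]; abel
  have h2 : pt i0 i1 i (j - 1) = pt i0 i1 i j - e i1 := by
    unfold pt; rw [sub_smul, one_smul]; abel
  have h3 : pt i0 i1 i j - e i1 - e i0 = pt i0 i1 i j - e i0 - e i1 := by abel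
  show ρ (cc i0 (pt i0 i1 i j) + (h (pt i0 i1 i j) - h (pt i0 i1 i j - e i1))) -
    ρ (cc i0 (pt i0 i1 (i - 1) j) + (h (pt i0 i1 (i - 1) j) - h (pt i0 i1 (i - 1) j - e i1))) +
    (ρ (h (pt i0 i1 i j - e i0) - h (pt i0 i1 i j)) -
      ρ (h (pt i0 i1 i (j - 1) - e i0) - h (pt i0 i1 i (j - 1)))) = _
  rw [h1, h2, h3, cc_sub_e]
  have := Xf_val (cc i0 (pt i0 i1 i j)) (h (pt i0 i1 i j)) (h (pt i0 i1 i j - e i0))
    (h (pt i0 i1 i j - e i1)) (h (pt i0 i1 i j - e i0 - e i1))
  show _ = ((Xf (cc i0 (pt i0 i1 i j)) (h (pt i0 i1 i j)) (h (pt i0 i1 i j - e i0))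
    (h (pt i0 i1 i j - e i1)) (h (pt i0 i1 i j - e i0 - e i1)) : ℕ) : ℝ) - √2
  rw [this]
  unfold D
  ring

lemma not_periodic_of_support {x : Z d → Fin 4} (hx : x ∈ support (P d) (X i0 i1)) :
    ¬ Periodic x := by
  classical
  rintro ⟨H, hH, hper⟩
  have hmem : (fun p : ℤ × ℤ => x (pt i0 i1 p.1 p.2)) ∈ Pool.Agent.H315.Flow.X₀ := by
    apply Pool.Agent.H315.Flow.mem_of_approx
    intro B
    have hpos := hx (B.image fun p => pt i0 i1 p.1 p.2)
    obtain ⟨ω, hω⟩ : {ω : Z d → C | ∀ v ∈ B.image (fun p => pt i0 i1 p.1 p.2),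
        X i0 i1 v ω = x v}.Nonempty := by
      rw [Set.nonempty_iff_ne_empty]
      intro h0
      rw [h0] at hpos
      simp at hpos
    refine ⟨_, flow_slice (i0 := i0) (i1 := i1) ω, ?_⟩
    intro p hp
    exact hω _ (Finset.mem_image_of_mem _ hp)
  have hidx : H.index ≠ 0 := hH.index_ne_zero
  obtain ⟨p, hp, -, hpH⟩ := AddSubgroup.exists_nsmul_mem_of_index_ne_zero hidx (e i0)
  obtain ⟨q, hq, -, hqH⟩ := AddSubgroup.exists_nsmul_mem_of_index_ne_zero hidx (e i1)
  refine Pool.Agent.H315.Flow.no_periods hmem hp hq ?_ ?_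
  · intro i j
    have := hper _ hpH (pt i0 i1 i j)
    have e1 : pt i0 i1 (i + p) j = pt i0 i1 i j + p • e i0 := by
      unfold pt; rw [add_smul, natCast_zsmul]; abel
    show x (pt i0 i1 (i + p) j) = x (pt i0 i1 i j)
    rw [e1, this]
  · intro i j
    have := hper _ hqH (pt i0 i1 i j)
    have e1 : pt i0 i1 i (j + q) = pt i0 i1 i j + q • e i1 := by
      unfold pt; rw [add_smul, natCast_zsmul]; abel
    show x (pt i0 i1 i (j + q)) = x (pt i0 i1 i j)
    rw [e1, this]

end Field

/-- The support of a field with finitely many values is not empty. -/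
lemma support_nonempty {d : ℕ} {A Ω : Type} [Finite A] [MeasurableSpace Ω] (P : Measure Ω)
    [IsProbabilityMeasure P] (X : Z d → Ω → A) : (support P X).Nonempty := by
  have h : ∀ B : Finset (Z d), ∀ p : B → A, ∀ᵐ ω ∂P,
      P {ω' | ∀ v : B, X v ω' = p v} = 0 → ¬ ∀ v : B, X v ω = p v := by
    intro B p
    by_cases h0 : P {ω' | ∀ v : B, X v ω' = p v} = 0
    · have : ∀ᵐ ω ∂P, ¬ ∀ v : B, X v ω = p v := by
        rw [ae_iff]
        simpa using h0
      filter_upwards [this] with ω hω _ using hω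
    · exact Filter.Eventually.of_forall fun ω hh => absurd hh h0
  have h2 : ∀ᵐ ω ∂P, ∀ B : Finset (Z d), ∀ p : B → A,
      P {ω' | ∀ v : B, X v ω' = p v} = 0 → ¬ ∀ v : B, X v ω = p v := by
    rw [ae_all_iff]
    intro B
    rw [ae_all_iff]
    exact h B
  obtain ⟨ω, hω⟩ := h2.exists
  refine ⟨fun u => X u ω, ?_⟩
  intro B
  rw [pos_iff_ne_zero]
  intro h0
  refine hω B (fun v => X v ω) ?_ (fun v => rfl)
  rw [← h0]
  congr 1
  ext ω'
  simp

/-- For every `d ≥ 2` there is a shift-invariant finitely dependent process on `ℤ^d` with four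
values, whose (nonempty) support contains no periodic point. -/
theorem result (d : ℕ) (hd : 2 ≤ d) :
    ∃ (Ω : Type) (_ : MeasurableSpace Ω) (P : Measure Ω) (X : Z d → Ω → Fin 4),
      IsProbabilityMeasure P ∧ (∀ v, Measurable (X v)) ∧ ShiftInvariant P X ∧
      FinitelyDependent P X ∧ (support P X).Nonempty ∧ ∀ x ∈ support P X, ¬ Periodic x := by
  have hne : (⟨0, by omega⟩ : Fin d) ≠ ⟨1, by omega⟩ := by
    intro h
    simp at h
  exact ⟨Z d → C, inferInstance, P d, X ⟨0, by omega⟩ ⟨1, by omega⟩, inferInstance,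
    X_meas _ _, shiftInvariant hne, finitelyDependent hne, support_nonempty _ _,
    fun x hx => not_periodic_of_support hx⟩

end Pool.Agent.Results.MP_5c5aaa_pr.SupportWithoutPeriodic
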